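import Pool.Agent.U115.WM.Stm
import Pool.Agent.N507.PQ.Hrb

/-! Project WM (helper115), package RED (helper580): reduced bases of integral lattices. -/

set_option autoImplicit false

open Matrix
open scoped Classical

namespace Pool.Agent.U580.WM

open Pool.Agent.U115.WM

/-- the real matrix -/
abbrev rl {n k : ℕ} (A : Matrix (Fin n) (Fin k) ℤ) : Matrix (Fin n) (Fin k) ℝ :=
  A.map (Int.cast : ℤ → ℝ)

lemma rl_mul {n m k : ℕ} (A : Matrix (Fin n) (Fin m) ℤ) (U : Matrix (Fin m) (Fin k) ℤ) :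
    rl (A * U) = rl A * rl U := by
  have := Matrix.map_mul (L := A) (M := U) (f := Int.castRingHom ℝ)
  exact this

lemma det_cast {n k : ℕ} (A : Matrix (Fin n) (Fin k) ℤ) :
    ((Aᵀ * A).det : ℝ) = ((rl A)ᵀ * rl A).det := by
  have h1 : (((Aᵀ * A).det : ℤ) : ℝ) = ((Int.castRingHom ℝ).mapMatrix (Aᵀ * A)).det :=
    RingHom.map_det (Int.castRingHom ℝ) (Aᵀ * A)
  rw [h1]
  congr 1
  rw [RingHom.mapMatrix_apply, Matrix.map_mul]
  rfl

lemma diag_cast {n k : ℕ} (A : Matrix (Fin n) (Fin k) ℤ) (i : Fin k) :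
    ((rl A)ᵀ * rl A) i i = (N A i : ℝ) := by
  rw [Matrix.mul_apply]
  unfold N
  push_cast
  refine Finset.sum_congr rfl fun l _ => ?_
  simp only [Matrix.transpose_apply, Matrix.map_apply]
  ring

lemma det_ne {n k : ℕ} {A : Matrix (Fin n) (Fin k) ℤ} (hA : Inj A) : (Aᵀ * A).det ≠ 0 := by
  intro h
  obtain ⟨v, hv, hv'⟩ := Matrix.exists_mulVec_eq_zero_iff.2 h
  apply hv
  apply hA
  have h1 : (A *ᵥ v) ⬝ᵥ (A *ᵥ v) = 0 := by
    have h2 : v ⬝ᵥ ((Aᵀ * A) *ᵥ v) = 0 := by rw [hv', dotProduct_zero]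
    rw [← Matrix.mulVec_mulVec, Matrix.dotProduct_mulVec, Matrix.vecMul_transpose] at h2
    exact h2
  exact dotProduct_self_eq_zero.1 h1

lemma inj_real {n k : ℕ} {A : Matrix (Fin n) (Fin k) ℤ} (hA : Inj A) :
    Function.Injective (rl A).mulVec := by
  have hd : ((rl A)ᵀ * rl A).det ≠ 0 := by
    rw [← det_cast]
    exact_mod_cast det_ne hA
  intro x y hxy
  have h1 : (rl A) *ᵥ (x - y) = 0 := by
    rw [Matrix.mulVec_sub]
    exact sub_eq_zero.2 hxy
  have h2 : ((rl A)ᵀ * rl A) *ᵥ (x - y) = 0 := by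
    rw [← Matrix.mulVec_mulVec, h1, Matrix.mulVec_zero]
  exact sub_eq_zero.1 (Matrix.eq_zero_of_mulVec_eq_zero hd h2)

lemma posdef {n k : ℕ} {A : Matrix (Fin n) (Fin k) ℤ} (hA : Inj A) :
    ((rl A)ᵀ * rl A).PosDef := by
  rw [← Matrix.conjTranspose_eq_transpose_of_trivial]
  exact Matrix.PosDef.conjTranspose_mul_self _ (inj_real hA)

lemma inj_mul {n k : ℕ} {A : Matrix (Fin n) (Fin k) ℤ} (hA : Inj A)
    {U : Matrix (Fin k) (Fin k) ℤ} (hU : IsUnit U.det) : Inj (A * U) := by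
  intro c hc
  rw [← Matrix.mulVec_mulVec] at hc
  exact Matrix.eq_zero_of_mulVec_eq_zero hU.ne_zero (hA _ hc)

lemma pos_N {n k : ℕ} {A : Matrix (Fin n) (Fin k) ℤ} (hA : Inj A) (i : Fin k) : 1 ≤ N A i := by
  have h0 : 0 ≤ N A i := Finset.sum_nonneg fun l _ => sq_nonneg _
  rcases h0.eq_or_lt with h | h
  · exfalso
    unfold N at h
    have h1 := (Finset.sum_eq_zero_iff_of_nonneg (fun l _ => sq_nonneg (A l i))).1 h.symm
    have h2 : A *ᵥ (Pi.single i 1) = 0 := by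
      rw [Matrix.mulVec_single_one]
      funext l
      exact pow_eq_zero_iff (two_ne_zero) |>.1 (h1 l (Finset.mem_univ l))
    have h3 := congrFun (hA _ h2) i
    simp at h3
  · omega

lemma det_mul_U {n k : ℕ} (A : Matrix (Fin n) (Fin k) ℤ)
    {U : Matrix (Fin k) (Fin k) ℤ} (hU : IsUnit U.det) :
    ((A * U)ᵀ * (A * U)).det = (Aᵀ * A).det := by
  have h1 : (A * U)ᵀ * (A * U) = Uᵀ * (Aᵀ * A) * U := by
    rw [Matrix.transpose_mul]
    simp only [Matrix.mul_assoc]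
  rw [h1, Matrix.det_mul, Matrix.det_mul, Matrix.det_transpose]
  rcases Int.isUnit_iff.1 hU with h | h <;> rw [h] <;> ring

/-- the normalised columns -/
noncomputable def nc {n k : ℕ} (A : Matrix (Fin n) (Fin k) ℤ) : Matrix (Fin n) (Fin k) ℝ :=
  Matrix.of fun l j => (A l j : ℝ) / √(N A j : ℝ)

lemma nc_entry {n k : ℕ} {A : Matrix (Fin n) (Fin k) ℤ} (hN : ∀ i, 1 ≤ N A i) (i j : Fin k) :
    |((nc A)ᵀ * nc A) i j| ≤ 1 := by
  have hs : ∀ i, 0 < √(N A i : ℝ) := fun i =>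
    Real.sqrt_pos.2 (by exact_mod_cast lt_of_lt_of_le zero_lt_one (hN i))
  have hq : ∀ i, √(N A i : ℝ) ^ 2 = N A i := fun i =>
    Real.sq_sqrt (by exact_mod_cast (zero_le_one.trans (hN i)))
  have h1 : ((nc A)ᵀ * nc A) i j = (∑ l, (A l i : ℝ) * A l j) / (√(N A i : ℝ) * √(N A j : ℝ)) := by
    rw [Matrix.mul_apply, Finset.sum_div]
    refine Finset.sum_congr rfl fun l _ => ?_
    simp only [nc, Matrix.transpose_apply, Matrix.of_apply]
    rw [div_mul_div_comm]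
  rw [h1, abs_div, abs_of_pos (mul_pos (hs i) (hs j)), div_le_one (mul_pos (hs i) (hs j))]
  refine abs_le_of_sq_le_sq ?_ (mul_pos (hs i) (hs j)).le
  have h2 := Finset.sum_mul_sq_le_sq_mul_sq Finset.univ (fun l => (A l i : ℝ)) (fun l => (A l j : ℝ))
  rw [mul_pow, hq, hq]
  unfold N
  push_cast
  exact h2

lemma nc_det {n k : ℕ} {A : Matrix (Fin n) (Fin k) ℤ} (hN : ∀ i, 1 ≤ N A i) :
    ((nc A)ᵀ * nc A).det * ∏ i, (N A i : ℝ) = ((Aᵀ * A).det : ℝ) := by
  have hs : ∀ i, 0 < √(N A i : ℝ) := fun i =>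
    Real.sqrt_pos.2 (by exact_mod_cast lt_of_lt_of_le zero_lt_one (hN i))
  have hq : ∀ i, √(N A i : ℝ) ^ 2 = N A i := fun i =>
    Real.sq_sqrt (by exact_mod_cast (zero_le_one.trans (hN i)))
  have h1 : rl A = nc A * Matrix.diagonal (fun j => √(N A j : ℝ)) := by
    ext l j
    rw [Matrix.mul_diagonal]
    simp only [nc, Matrix.of_apply, Matrix.map_apply]
    rw [div_mul_cancel₀ _ (hs j).ne']
  have h2 : (rl A)ᵀ * rl A = Matrix.diagonal (fun j => √(N A j : ℝ)) * ((nc A)ᵀ * nc A) *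
      Matrix.diagonal (fun j => √(N A j : ℝ)) := by
    rw [h1, Matrix.transpose_mul, Matrix.diagonal_transpose]
    simp only [Matrix.mul_assoc]
  rw [det_cast, h2, Matrix.det_mul, Matrix.det_mul, Matrix.det_diagonal]
  have h3 : ∏ i, (N A i : ℝ) = (∏ i, √(N A i : ℝ)) * ∏ i, √(N A i : ℝ) := by
    rw [← Finset.prod_mul_distrib]
    exact Finset.prod_congr rfl fun i _ => (hq i).symm.trans (sq _)
  rw [h3]
  ring

lemma det_small {k : ℕ} (M : Matrix (Fin k) (Fin k) ℝ) (hM : ∀ i j, |M i j| ≤ 1) :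
    |M.det| ≤ (k.factorial : ℝ) := by
  have h := Matrix.det_le (A := M) (abv := AbsoluteValue.abs) (x := (1 : ℝ)) hM
  simpa using h

theorem t_RED : S_RED := by
  intro n k
  obtain ⟨C₁, hC₁, hred⟩ := Pool.Agent.N507.PQ.hrb k
  have hf1 : (1 : ℝ) ≤ (k.factorial : ℝ) := by exact_mod_cast Nat.factorial_pos k
  have hf0 : (0 : ℝ) < (k.factorial : ℝ) := by linarith
  set C : ℝ := (k.factorial : ℝ) * (C₁ + 1) with hC
  have hC1 : 1 ≤ C := by rw [hC]; nlinarith
  have hCC₁ : C₁ ≤ C := by rw [hC]; nlinarith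
  have hCf : (k.factorial : ℝ) ≤ C := by rw [hC]; nlinarith
  have hCfC : (k.factorial : ℝ) * C₁ ≤ C := by rw [hC]; nlinarith
  refine ⟨C, hC1, fun B hB => ?_⟩
  obtain ⟨U, hU, hmono, hprod⟩ := hred ((rl B)ᵀ * rl B) (posdef hB)
  refine ⟨U, hU, ?_⟩
  set A := B * U with hA
  have hAinj : Inj A := inj_mul hB hU
  have hN := pos_N hAinj
  have hdiag : ∀ i, ((U.map (Int.cast : ℤ → ℝ))ᵀ * ((rl B)ᵀ * rl B) * U.map (Int.cast : ℤ → ℝ)) i i =
      (N A i : ℝ) := by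
    intro i
    rw [← diag_cast A i, hA, rl_mul, Matrix.transpose_mul]
    simp only [Matrix.mul_assoc]
  simp only [hdiag] at hmono hprod
  have hdet : ((rl B)ᵀ * rl B).det = ((Aᵀ * A).det : ℝ) := by
    rw [← det_cast, hA, det_mul_U B hU]
  rw [hdet] at hprod
  have hP1 : (1 : ℝ) ≤ ∏ i, (N A i : ℝ) := by
    have h0 : (0 : ℤ) < ∏ i, N A i := Finset.prod_pos fun i _ => by
      have := hN i
      omega
    have : (1 : ℤ) ≤ ∏ i, N A i := by omega
    exact_mod_cast this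
  have hP0 : (0 : ℝ) < ∏ i, (N A i : ℝ) := by linarith
  have hD0 : (0 : ℝ) < ((Aᵀ * A).det : ℝ) := by
    by_contra h
    push Not at h
    nlinarith
  have hs : ∀ i, 0 < √(N A i : ℝ) := fun i =>
    Real.sqrt_pos.2 (by exact_mod_cast lt_of_lt_of_le zero_lt_one (hN i))
  have hq : ∀ i, √(N A i : ℝ) ^ 2 = N A i := fun i =>
    Real.sq_sqrt (by exact_mod_cast (zero_le_one.trans (hN i)))
  set M : Matrix (Fin k) (Fin k) ℝ := (nc A)ᵀ * nc A with hM
  have hMe : ∀ i j, |M i j| ≤ 1 := nc_entry hN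
  have hMd : M.det * ∏ i, (N A i : ℝ) = ((Aᵀ * A).det : ℝ) := nc_det hN
  have hM0 : 0 < M.det := by
    by_contra h
    push Not at h
    nlinarith
  have hM1 : 1 ≤ C₁ * M.det := by
    by_contra h
    push Not at h
    rw [← hMd] at hprod
    nlinarith
  refine ⟨hAinj, hN, ?_, ?_, ?_, ?_⟩
  · intro i j hij
    have := hmono hij
    simp only at this
    exact_mod_cast this
  · -- quo
    intro x i
    obtain ⟨y, hy⟩ : ∃ y : Fin k → ℝ, y = fun j => √(N A j : ℝ) * x j := ⟨_, rfl⟩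
    have hAy : ∀ l, ∑ j, nc A l j * y j = ∑ j, (A l j : ℝ) * x j := by
      intro l
      refine Finset.sum_congr rfl fun j _ => ?_
      rw [hy]
      simp only [nc, Matrix.of_apply]
      rw [← mul_assoc, div_mul_cancel₀ _ (hs j).ne']
    have hyi : y i ^ 2 = x i ^ 2 * (N A i : ℝ) := by
      rw [hy]
      simp only
      rw [mul_pow, hq]
      ring
    have hMu : IsUnit M.det := hM0.ne'.isUnit
    obtain ⟨u, hu⟩ : ∃ u : Fin k → ℝ, u = M⁻¹ *ᵥ Pi.single i 1 := ⟨_, rfl⟩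
    have hMu1 : M *ᵥ u = Pi.single i 1 := by
      rw [hu, Matrix.mulVec_mulVec, Matrix.mul_nonsing_inv _ hMu, Matrix.one_mulVec]
    have hui : u i = M.adjugate i i / M.det := by
      rw [hu, Matrix.mulVec_single_one, Matrix.inv_def, Ring.inverse_eq_inv]
      simp only [Matrix.col_apply, Matrix.smul_apply, smul_eq_mul]
      rw [div_eq_inv_mul]
    have hadj : |M.adjugate i i| ≤ (k.factorial : ℝ) := by
      rw [Matrix.adjugate_apply]
      refine det_small _ fun p q => ?_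
      rw [Matrix.updateRow_apply]
      split_ifs with h
      · rw [Pi.single_apply]
        split_ifs <;> simp
      · exact hMe p q
    have huC : u i ≤ C := by
      rw [hui, div_le_iff₀ hM0]
      have h1 := (abs_le.1 hadj).2
      have h2 : (k.factorial : ℝ) ≤ (k.factorial : ℝ) * (C₁ * M.det) := by nlinarith
      have h3 : (k.factorial : ℝ) * C₁ * M.det ≤ C * M.det :=
        mul_le_mul_of_nonneg_right hCfC hM0.le
      nlinarith
    -- Cauchy-Schwarz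
    have h1 : (nc A *ᵥ y) ⬝ᵥ (nc A *ᵥ u) = y i := by
      have : (nc A *ᵥ y) ⬝ᵥ (nc A *ᵥ u) = y ⬝ᵥ (M *ᵥ u) := by
        rw [hM, ← Matrix.mulVec_mulVec, Matrix.dotProduct_mulVec y, Matrix.vecMul_transpose]
      rw [this, hMu1, dotProduct_single, mul_one]
    have h2 : (nc A *ᵥ u) ⬝ᵥ (nc A *ᵥ u) = u i := by
      have : (nc A *ᵥ u) ⬝ᵥ (nc A *ᵥ u) = u ⬝ᵥ (M *ᵥ u) := by
        rw [hM, ← Matrix.mulVec_mulVec, Matrix.dotProduct_mulVec u, Matrix.vecMul_transpose]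
      rw [this, hMu1, dotProduct_single, mul_one]
    have h3 : (nc A *ᵥ y) ⬝ᵥ (nc A *ᵥ y) = ∑ l, (∑ j, (A l j : ℝ) * x j) ^ 2 := by
      unfold dotProduct
      refine Finset.sum_congr rfl fun l _ => ?_
      rw [← hAy l, sq]
      rfl
    have hC0 : 0 < C := by linarith
    have h4 : 0 ≤ (nc A *ᵥ y - (y i / C) • (nc A *ᵥ u)) ⬝ᵥ
        (nc A *ᵥ y - (y i / C) • (nc A *ᵥ u)) := by
      unfold dotProduct
      exact Finset.sum_nonneg fun l _ => mul_self_nonneg _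
    rw [sub_dotProduct, dotProduct_sub, dotProduct_sub, dotProduct_smul, smul_dotProduct,
      smul_dotProduct, dotProduct_smul, h2, dotProduct_comm (nc A *ᵥ u), h1, h3] at h4
    simp only [smul_eq_mul] at h4
    rw [← hyi]
    have h5 : y i / C * (y i / C * u i) ≤ y i ^ 2 / C := by
      have : y i / C * (y i / C * u i) = y i ^ 2 / C ^ 2 * u i := by field_simp
      rw [this]
      have h6 : y i ^ 2 / C ^ 2 * u i ≤ y i ^ 2 / C ^ 2 * C :=
        mul_le_mul_of_nonneg_left huC (by positivity)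
      refine h6.trans (le_of_eq ?_)
      field_simp
    have h7 : y i / C * y i = y i ^ 2 / C := by field_simp
    rw [h7] at h4
    have h8 : y i ^ 2 / C ≤ ∑ l, (∑ j, (A l j : ℝ) * x j) ^ 2 := by linarith
    rw [div_le_iff₀ hC0] at h8
    linarith
  · -- low
    calc (∏ i, (N A i : ℝ)) ≤ C₁ * ((Aᵀ * A).det : ℝ) := hprod
      _ ≤ C * ((Aᵀ * A).det : ℝ) := mul_le_mul_of_nonneg_right hCC₁ hD0.le
  · -- upp
    rw [← hMd]
    have h1 := (abs_le.1 (det_small M hMe)).2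
    exact mul_le_mul_of_nonneg_right (h1.trans hCf) hP0.le

end Pool.Agent.U580.WM
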